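import Pool.Agent.H590.NL.Stm

set_option autoImplicit false

noncomputable section

open MeasureTheory Filter Topology Set
open scoped BigOperators

namespace Pool.Agent.H176.NL

open H590NL

theorem slog (s : ℝ) (hs : 0 ≤ s) : |s * Real.log s| ≤ 8 * Real.exp (s / 2) := by
  rw [abs_mul, abs_of_nonneg hs]
  rcases hs.eq_or_lt with rfl | hs'
  · simp
  rcases le_total s 1 with h1 | h1
  · have hlog : Real.log s ≤ 0 := Real.log_nonpos hs h1
    have h2 : -Real.log s ≤ s⁻¹ - 1 := by
      have := Real.log_le_sub_one_of_pos (inv_pos.2 hs')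
      rwa [Real.log_inv] at this
    rw [abs_of_nonpos hlog]
    have h3 : s * -Real.log s ≤ s * (s⁻¹ - 1) := mul_le_mul_of_nonneg_left h2 hs
    have h4 : s * (s⁻¹ - 1) = 1 - s := by field_simp
    have h5 : (1:ℝ) ≤ Real.exp (s / 2) := Real.one_le_exp (by linarith)
    linarith
  · have hlog : 0 ≤ Real.log s := Real.log_nonneg h1
    rw [abs_of_nonneg hlog]
    have h2 : Real.log s ≤ s := (Real.log_le_sub_one_of_pos hs').trans (by linarith)
    have h3 : s * Real.log s ≤ s * s := mul_le_mul_of_nonneg_left h2 hs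
    have h4 := Real.quadratic_le_exp_of_nonneg (x := s / 2) (by linarith)
    nlinarith

theorem pow_lower {a q t : ℝ} (ha : a ≤ q) (h0 : 0 < a) (ht : 0 ≤ t) :
    t ^ a - 1 ≤ t ^ q := by
  rcases le_total t 1 with h1 | h1
  · have h2 : t ^ a ≤ 1 := Real.rpow_le_one ht h1 h0.le
    have h3 : 0 ≤ t ^ q := Real.rpow_nonneg ht q
    linarith
  · have := Real.rpow_le_rpow_of_exponent_le h1 ha
    linarith

variable {n : ℕ} {κ : Type} [Fintype κ]

theorem Ph_nonneg (q : ℝ) (v : κ → V n) (x : V n) : 0 ≤ Ph q v one x := by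
  unfold Ph one
  exact Finset.sum_nonneg fun k _ => mul_nonneg zero_le_one (Real.rpow_nonneg (abs_nonneg _) _)

theorem Ph_lower {a q : ℝ} (ha : a ≤ q) (h0 : 0 < a) (v : κ → V n) (x : V n) :
    Ph a v one x - Fintype.card κ ≤ Ph q v one x := by
  unfold Ph one
  have : (∑ k : κ, (1:ℝ) * |ip (v k) x| ^ a) - Fintype.card κ =
      ∑ k : κ, ((1:ℝ) * |ip (v k) x| ^ a - 1) := by
    rw [Finset.sum_sub_distrib]
    simp
  rw [this]
  refine Finset.sum_le_sum fun k _ => ?_
  have := pow_lower ha h0 (abs_nonneg (ip (v k) x))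
  linarith

theorem Ph_term (q : ℝ) (v : κ → V n) (x : V n) (k : κ) :
    |ip (v k) x| ^ q ≤ Ph q v one x := by
  unfold Ph one
  have := Finset.single_le_sum (f := fun k : κ => (1:ℝ) * |ip (v k) x| ^ q)
    (fun k _ => mul_nonneg zero_le_one (Real.rpow_nonneg (abs_nonneg _) _)) (Finset.mem_univ k)
  simpa using this

theorem cont_ip (v : V n) : Continuous fun x => ip v x := by
  unfold ip
  exact continuous_finsetSum _ fun i _ => continuous_const.mul (continuous_apply i)

theorem cont_Ph (q : ℝ) (hq : 0 < q) (v : κ → V n) : Continuous fun x => Ph q v one x := by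
  unfold Ph
  refine continuous_finsetSum _ fun k _ => continuous_const.mul ?_
  exact (cont_ip (v k)).abs.rpow_const fun x => Or.inr hq.le

theorem Ph_smul (a c : ℝ) (hc : 0 ≤ c) (v : κ → V n) (x : V n) :
    Ph a (fun k => c • v k) one x = c ^ a * Ph a v one x := by
  unfold Ph one
  rw [Finset.mul_sum]
  refine Finset.sum_congr rfl fun k _ => ?_
  have : ip (c • v k) x = c * ip (v k) x := by
    simp only [ip, Pi.smul_apply, smul_eq_mul, Finset.mul_sum, mul_assoc]
  rw [this, abs_mul, abs_of_nonneg hc, Real.mul_rpow hc (abs_nonneg _)]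
  ring

/-- derivative of `t ^ q` in `q` -/
theorem deriv_t (t q : ℝ) (ht : 0 ≤ t) (hq : 0 < q) :
    HasDerivAt (fun q : ℝ => t ^ q) (t ^ q * Real.log t) q := by
  rcases ht.eq_or_lt with rfl | ht
  · have h0 : (0:ℝ) ^ q * Real.log 0 = 0 := by simp
    rw [h0]
    have : (fun q : ℝ => (0:ℝ) ^ q) =ᶠ[𝓝 q] fun _ => (0:ℝ) := by
      filter_upwards [eventually_gt_nhds hq] with r hr
      exact Real.zero_rpow hr.ne'
    exact (hasDerivAt_const q (0:ℝ)).congr_of_eventuallyEq this
  · exact (Real.hasStrictDerivAt_const_rpow ht q).hasDerivAt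

/-- `-∂/∂q` of the integrand -/
def G (v : κ → V n) (q : ℝ) (x : V n) : ℝ :=
  Real.exp (-(Ph q v one x)) * -(∑ k, |ip (v k) x| ^ q * Real.log |ip (v k) x|)

theorem bound (v : κ → V n) {a q : ℝ} (h1 : 1 ≤ a) (ha : a ≤ q) (x : V n) :
    ‖G v q x‖ ≤ 8 * Fintype.card κ * Real.exp (Fintype.card κ) *
      Real.exp (-(Ph a v one x / 2)) := by
  have hq0 : 0 < q := by linarith
  unfold G
  rw [norm_mul, norm_neg, Real.norm_eq_abs, Real.norm_eq_abs, Real.abs_exp]
  have hS : |∑ k, |ip (v k) x| ^ q * Real.log (|ip (v k) x|)| ≤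
      ∑ _k : κ, 8 * Real.exp (Ph q v one x / 2) := by
    refine (Finset.abs_sum_le_sum_abs _ _).trans (Finset.sum_le_sum fun k _ => ?_)
    set t := |ip (v k) x| with ht
    have ht0 : 0 ≤ t := abs_nonneg _
    have hs := slog (t ^ q) (Real.rpow_nonneg ht0 q)
    have h2 : Real.log (t ^ q) = q * Real.log t := by
      rcases ht0.eq_or_lt with h | h
      · rw [← h, Real.zero_rpow hq0.ne']
        simp
      · exact Real.log_rpow h q
    rw [h2] at hs
    have h3 : |t ^ q * Real.log t| ≤ |t ^ q * (q * Real.log t)| := by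
      have : t ^ q * (q * Real.log t) = q * (t ^ q * Real.log t) := by ring
      rw [this, abs_mul q, abs_of_pos hq0]
      have h4 := abs_nonneg (t ^ q * Real.log t)
      nlinarith
    have h5 : Real.exp (t ^ q / 2) ≤ Real.exp (Ph q v one x / 2) := by
      apply Real.exp_le_exp.2
      have := Ph_term q v x k
      linarith
    linarith
  rw [Finset.sum_const, Finset.card_univ, nsmul_eq_mul] at hS
  have h6 : Real.exp (-(Ph q v one x)) * |∑ k, |ip (v k) x| ^ q * Real.log (|ip (v k) x|)| ≤
      Real.exp (-(Ph q v one x)) * (Fintype.card κ * (8 * Real.exp (Ph q v one x / 2))) :=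
    mul_le_mul_of_nonneg_left hS (Real.exp_pos _).le
  have h7 : Real.exp (-(Ph q v one x)) * Real.exp (Ph q v one x / 2) =
      Real.exp (-(Ph q v one x / 2)) := by
    rw [← Real.exp_add]
    congr 1
    ring
  have h8 : Real.exp (-(Ph q v one x / 2)) ≤
      Real.exp (Fintype.card κ) * Real.exp (-(Ph a v one x / 2)) := by
    rw [← Real.exp_add]
    apply Real.exp_le_exp.2
    have := Ph_lower ha (by linarith) v x
    have h9 : (0:ℝ) ≤ Fintype.card κ := Nat.cast_nonneg _
    linarith
  calc _ ≤ Real.exp (-(Ph q v one x)) * (Fintype.card κ * (8 * Real.exp (Ph q v one x / 2))) := h6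
    _ = 8 * Fintype.card κ * (Real.exp (-(Ph q v one x)) * Real.exp (Ph q v one x / 2)) := by ring
    _ = 8 * Fintype.card κ * Real.exp (-(Ph q v one x / 2)) := by rw [h7]
    _ ≤ 8 * Fintype.card κ * (Real.exp (Fintype.card κ) * Real.exp (-(Ph a v one x / 2))) := by
        refine mul_le_mul_of_nonneg_left h8 (by positivity)
    _ = _ := by ring

theorem half_int (h : S_IF) (v : κ → V n) (hv : Spans v) {a : ℝ} (h1 : 1 < a) (h2 : a ≤ 2) :
    Integrable fun x => Real.exp (-(Ph a v one x / 2)) := by
  set c : ℝ := (1 / 2 : ℝ) ^ (1 / a) with hc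
  have hc0 : 0 < c := Real.rpow_pos_of_pos (by norm_num) _
  have hca : c ^ a = 1 / 2 := by
    rw [hc, ← Real.rpow_mul (by norm_num)]
    have : 1 / a * a = 1 := by field_simp
    rw [this, Real.rpow_one]
  have hsp : Spans fun k => c • v k := by
    obtain ⟨f, hf⟩ := hv
    refine ⟨f, ?_⟩
    have : dm (fun k => c • v k) f = c • dm v f := by
      ext i j
      rfl
    rw [this, Matrix.det_smul]
    exact mul_ne_zero (pow_ne_zero _ hc0.ne') hf
  have := (h n κ a h1 h2 (fun k => c • v k) hsp).1
  refine this.congr (Eventually.of_forall fun x => ?_)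
  show Real.exp (-(Ph a (fun k => c • v k) one x)) = _
  rw [Ph_smul a c hc0.le, hca]
  congr 1
  ring

theorem DPF (h : S_IF) : S_DPF := by
  intro n κ _ p hp1 hp2 v hv
  set a : ℝ := (1 + p) / 2 with ha
  set b : ℝ := 2 with hb
  have ha1 : 1 < a := by rw [ha]; linarith
  have hap : a < p := by rw [ha]; linarith
  have key := hasDerivAt_integral_of_dominated_loc_of_deriv_le (μ := (volume : Measure (V n)))
    (F := fun q x => Real.exp (-(Ph q v one x))) (F' := G v) (x₀ := p) (s := Ioi a)
    (bound := fun x => 8 * Fintype.card κ * Real.exp (Fintype.card κ) *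
      Real.exp (-(Ph a v one x / 2))) (Ioi_mem_nhds hap) ?_ ?_ ?_ ?_ ?_ ?_
  · have hval : ∫ x, G v p x = -(1 / p) * ∑ k, DFk p v k := by
      have h3 : ∀ x, G v p x = ∑ k, (-(1 / p)) * (Real.exp (-(Ph p v one x)) *
          (tau p v k x * Real.log (tau p v k x))) := by
        intro x
        unfold G
        rw [← Finset.sum_neg_distrib, Finset.mul_sum]
        refine Finset.sum_congr rfl fun k _ => ?_
        have h2 : Real.log (|ip (v k) x| ^ p) = p * Real.log |ip (v k) x| := by
          rcases (abs_nonneg (ip (v k) x)).eq_or_lt with h | h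
          · rw [← h, Real.zero_rpow (by linarith)]
            simp
          · exact Real.log_rpow h p
        unfold tau
        rw [h2]
        have : p ≠ 0 := by linarith
        field_simp
      simp_rw [h3]
      rw [integral_finsetSum]
      · rw [Finset.mul_sum]
        refine Finset.sum_congr rfl fun k _ => ?_
        rw [integral_const_mul]
        rfl
      · intro k _
        exact (((h n κ p hp1 hp2.le v hv).2.2 k).2).const_mul _
    have := key.2
    rw [hval] at this
    exact this
  · filter_upwards [eventually_gt_nhds hap] with q hq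
    exact (Real.continuous_exp.comp (cont_Ph q (by linarith) v).neg).aestronglyMeasurable
  · exact (h n κ p hp1 hp2.le v hv).1
  · apply Measurable.aestronglyMeasurable
    unfold G
    refine Measurable.mul ?_ (Measurable.neg ?_)
    · exact (Real.continuous_exp.comp (cont_Ph p (by linarith) v).neg).measurable
    · refine Finset.measurable_sum _ fun k _ => ?_
      have h5 : Measurable fun x => |ip (v k) x| := (cont_ip (v k)).abs.measurable
      exact (h5.pow_const p).mul (Real.measurable_log.comp h5)
  · exact Eventually.of_forall fun x q hq => bound v ha1.le (le_of_lt hq) x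
  · exact (half_int h v hv ha1 (by linarith)).const_mul _
  · refine Eventually.of_forall fun x q hq => ?_
    have hq0 : 0 < q := lt_trans (by linarith) (show a < q from hq)
    have h6 : HasDerivAt (fun q => Ph q v one x)
        (∑ k, |ip (v k) x| ^ q * Real.log |ip (v k) x|) q := by
      unfold Ph one
      have := HasDerivAt.fun_sum (u := (Finset.univ : Finset κ))
        (A := fun k q => (1:ℝ) * |ip (v k) x| ^ q)
        (A' := fun k => |ip (v k) x| ^ q * Real.log |ip (v k) x|) (x := q)
        (fun k _ => by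
          have := deriv_t |ip (v k) x| q (abs_nonneg _) hq0
          simpa using this)
      exact this
    exact h6.neg.exp

end Pool.Agent.H176.NL
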